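import Pool.Agent.helper88.PF.Spec

set_option autoImplicit false

namespace PF

theorem ACP_fin {X : Type} [Primcodable X] {α : Type} [Finite α] (P : α → Prop) (f : X → α)
    (hf : Cmp f) : ComputablePred (fun x => P (f x)) := by
  classical
  cases nonempty_fintype α
  have key : ∀ s : Finset α, ComputablePred (fun x => ∃ v ∈ s, P v ∧ f x = v) := by
    intro s
    induction s using Finset.induction_on with
    | empty =>
      have : (fun x => ∃ v ∈ (∅ : Finset α), P v ∧ f x = v) = fun _ : X => False := by
        funext x
        simp
      rw [this]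
      exact cp_const False
    | insert a s ha ih =>
      have : (fun x => ∃ v ∈ insert a s, P v ∧ f x = v) =
          fun x : X => (P a ∧ f x = a) ∨ ∃ v ∈ s, P v ∧ f x = v := by
        funext x
        apply propext
        constructor
        · rintro ⟨v, hv, h⟩
          rcases Finset.mem_insert.1 hv with rfl | hv
          · exact Or.inl h
          · exact Or.inr ⟨v, hv, h⟩
        · rintro (h | ⟨v, hv, h⟩)
          · exact ⟨a, Finset.mem_insert_self _ _, h⟩
          · exact ⟨v, Finset.mem_insert_of_mem hv, h⟩
      rw [this]
      exact cp_or (cp_and (cp_const _) (hf a)) ih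
  have : (fun x => P (f x)) = fun x => ∃ v ∈ (Finset.univ : Finset α), P v ∧ f x = v := by
    funext x
    apply propext
    constructor
    · intro h
      exact ⟨f x, Finset.mem_univ _, h, rfl⟩
    · rintro ⟨v, -, h, h2⟩
      rw [h2]
      exact h
  rw [this]
  exact key _

theorem ACP : ACP_stmt := by
  refine ⟨?_, ?_, ?_, ?_, ?_⟩
  · intro X _ α β _ g f hf v
    exact ACP_fin (fun a => g a = v) f hf
  · intro X _ α β f g hf hg v
    have : (fun x => (f x, g x) = v) = fun x => f x = v.1 ∧ g x = v.2 := by
      funext x
      apply propext
      rw [Prod.ext_iff]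
    rw [this]
    exact cp_and (hf _) (hg _)
  · intro X Y _ _ α f h hh hf v
    exact cp_comp hh (hf v)
  · intro X _ α _ P f hf
    exact ACP_fin P f hf
  · intro X _ α v w
    exact cp_const _

end PF
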